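import Pool.Agent.Helper18K9.PJ.Sum

/-!
# Project PJ, leaf POW: the power with the order of a finite group as exponent
-/

set_option autoImplicit false

namespace Pool.Agent.Helper18K9.PJ

open Function
open Pool.Agent.Y924.EL Pool.Agent.Y924.UF
open Pool.Agent.Helper14K9.SO Pool.Agent.Helper14K9.PJ

namespace PowL

variable {p : ℕ} [Fact p.Prime] {P : Set (LaurentSeries (ZMod p))}

/-- the quotient of the two sums -/
noncomputable def CC (S : Set (LaurentSeries (ZMod p))) (x l : LaurentSeries (ZMod p)) :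
    LaurentSeries (ZMod p) :=
  (∑ᶠ h ∈ S, (l - h)⁻¹) / (∑ᶠ h ∈ S, (l * x - h)⁻¹)

/-- the limit of the quotients is `y` -/
def Lm (S : Set (LaurentSeries (ZMod p))) (x y : LaurentSeries (ZMod p)) : Prop :=
  ∀ c : LaurentSeries (ZMod p), c ≠ 0 → ∃ d : LaurentSeries (ZMod p), d ≠ 0 ∧
    ∀ l : LaurentSeries (ZMod p), l ≠ 0 → (∃ z, z ∈ OO p ∧ l⁻¹ - 0 = d * z) →
      ∃ z, z ∈ OO p ∧ CC S x l - y = c * z

theorem ball_iff {r : LaurentSeries (ZMod p)} (hr : r ≠ 0) (x : LaurentSeries (ZMod p)) :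
    (∃ z, z ∈ OO p ∧ x = r * z) ↔ Vle (HahnSeries.order r) x := by
  rw [show (∃ z, z ∈ OO p ∧ x = r * z) ↔ (∃ z, z ∈ OO p ∧ r * z = x) from
    exists_congr fun z => and_congr_right fun _ => eq_comm]
  exact Pool.Agent.Helper56K9.SO.exists_OO hr x

theorem vle_iff {z : LaurentSeries (ZMod p)} (hz : z ≠ 0) (M : ℤ) :
    Vle M z ↔ M ≤ HahnSeries.order z :=
  Pool.Agent.Helper56K9.SO.vle_iff hz

theorem order_inv {l : LaurentSeries (ZMod p)} (hl : l ≠ 0) :
    HahnSeries.order l + HahnSeries.order l⁻¹ = 0 := by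
  rw [← HahnSeries.order_mul hl (inv_ne_zero hl), mul_inv_cancel₀ hl, HahnSeries.order_one]

theorem vle_sub {N : ℤ} {x y : LaurentSeries (ZMod p)} (hx : Vle N x) (hy : Vle N y) :
    Vle N (x - y) := by
  intro n hn
  rw [HahnSeries.coeff_sub, hx n hn, hy n hn, sub_zero]

theorem eq_of_vle {x y : LaurentSeries (ZMod p)} (h : ∀ N : ℤ, Vle N (x - y)) : x = y := by
  ext n
  have h1 := h (n + 1) n (by omega)
  rw [HahnSeries.coeff_sub, sub_eq_zero] at h1
  exact h1

theorem lm_iff (hLim : S_LIM) (G : AddSubgroup (LaurentSeries (ZMod p)))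
    (hG : (G : Set (LaurentSeries (ZMod p))).Finite) {x : LaurentSeries (ZMod p)} (hx : x ≠ 0)
    (y : LaurentSeries (ZMod p)) :
    Lm (G : Set (LaurentSeries (ZMod p))) x y ↔
      x ^ (G : Set (LaurentSeries (ZMod p))).ncard = y := by
  constructor
  · intro h
    refine eq_of_vle fun N => ?_
    have hc : (HahnSeries.single N (1 : ZMod p)) ≠ 0 :=
      HahnSeries.single_ne_zero one_ne_zero
    obtain ⟨d, hd, h1⟩ := h _ hc
    obtain ⟨M, hM⟩ := hLim p G hG x hx N
    obtain ⟨m, hm⟩ : ∃ m : ℤ, m = min (M - 1) (- HahnSeries.order d) := ⟨_, rfl⟩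
    have hl : (HahnSeries.single m (1 : ZMod p)) ≠ 0 :=
      HahnSeries.single_ne_zero one_ne_zero
    have hlo : HahnSeries.order (HahnSeries.single m (1 : ZMod p)) = m :=
      HahnSeries.order_single one_ne_zero
    have h2 := h1 _ hl (by
      rw [ball_iff hd, sub_zero, vle_iff (inv_ne_zero hl)]
      have h3 := order_inv hl
      rw [hlo] at h3
      have h4 : m ≤ - HahnSeries.order d := hm ▸ min_le_right _ _
      omega)
    rw [ball_iff hc, HahnSeries.order_single one_ne_zero] at h2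
    have h5 := hM _ hl (by
      rw [hlo]
      have h4 : m ≤ M - 1 := hm ▸ min_le_left _ _
      omega)
    have h6 := vle_sub h2 h5
    have h7 : (CC (G : Set (LaurentSeries (ZMod p))) x (HahnSeries.single m (1 : ZMod p)) - y) -
        ((∑ᶠ h ∈ (G : Set (LaurentSeries (ZMod p))), (HahnSeries.single m (1 : ZMod p) - h)⁻¹) /
          (∑ᶠ h ∈ (G : Set (LaurentSeries (ZMod p))),
            (HahnSeries.single m (1 : ZMod p) * x - h)⁻¹) -
          x ^ (G : Set (LaurentSeries (ZMod p))).ncard) =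
        x ^ (G : Set (LaurentSeries (ZMod p))).ncard - y := by
      unfold CC
      ring
    rw [h7] at h6
    exact h6
  · rintro rfl c hc
    obtain ⟨M, hM⟩ := hLim p G hG x hx (HahnSeries.order c)
    have hd : (HahnSeries.single (1 - M) (1 : ZMod p)) ≠ 0 :=
      HahnSeries.single_ne_zero one_ne_zero
    refine ⟨_, hd, fun l hl h1 => ?_⟩
    rw [ball_iff hd, sub_zero, vle_iff (inv_ne_zero hl), HahnSeries.order_single one_ne_zero] at h1
    have h3 := order_inv hl
    rw [ball_iff hc]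
    exact hM l hl (by omega)

end PowL

open SumL PowL

theorem pow : S_SUM → S_LIM → S_POW := by
  intro hSum hLim p _ P ρ hρ X hX hG f hf
  obtain ⟨N1, hN1⟩ := fam_fresh hX
  obtain ⟨N2, hN2⟩ := hf.indep
  obtain ⟨k, hk⟩ : ∃ k, k = N1 + N2 + 1 := ⟨_, rfl⟩
  have hXk : ∀ j, k ≤ j → ∀ v a, X (update v j a) = X v := fun j hj => hN1 j (by omega)
  have hfk : ∀ j, k ≤ j → ∀ v a, f (update v j a) = f v := fun j hj => hN2 j (by omega)
  -- the variables: k for l, k + 1 for x, k + 2 for y, k + 3 for c, k + 4 for d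
  have hA : Tk P (fun v => ∑ᶠ h ∈ X v, (v k - h)⁻¹) := by
    refine hSum p P ρ hρ X hX (fun v h => (v k - h)⁻¹) (k + 5) (by omega)
      (Rc.eqK ((Tk.var k).sub (Tk.var 0)).inv (Tk.var (k + 5))) ?_ ?_ (hXk _ (by omega))
    · intro v a
      simp only [update_of_ne (show k ≠ 0 by omega)]
    · intro v a
      simp only [update_of_ne (show k ≠ k + 5 by omega)]
  have hB : Tk P (fun v => ∑ᶠ h ∈ X v, (v k * v (k + 1) - h)⁻¹) := by
    refine hSum p P ρ hρ X hX (fun v h => (v k * v (k + 1) - h)⁻¹) (k + 5) (by omega)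
      (Rc.eqK (((Tk.var k).mul (Tk.var (k + 1))).sub (Tk.var 0)).inv (Tk.var (k + 5)))
      ?_ ?_ (hXk _ (by omega))
    · intro v a
      simp only [update_of_ne (show k ≠ 0 by omega), update_of_ne (show k + 1 ≠ 0 by omega)]
    · intro v a
      simp only [update_of_ne (show k ≠ k + 5 by omega),
        update_of_ne (show k + 1 ≠ k + 5 by omega)]
  have hC : Tk P (fun v => CC (X v) (v (k + 1)) (v k)) := hA.div hB
  have h1 : Rc P (fun v => v k ≠ 0 → (∃ z, z ∈ OO p ∧ (v k)⁻¹ - 0 = v (k + 4) * z) →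
      ∃ z, z ∈ OO p ∧ CC (X v) (v (k + 1)) (v k) - v (k + 2) = v (k + 3) * z) :=
    (Rc.eqC k 0).not.imp ((rc_ball (Tk.var k).inv (Tk.const 0) (Tk.var (k + 4))).imp
      (rc_ball hC (Tk.var (k + 2)) (Tk.var (k + 3))))
  have h2 : Rc P (fun v => ∀ l, l ≠ 0 → (∃ z, z ∈ OO p ∧ l⁻¹ - 0 = v (k + 4) * z) →
      ∃ z, z ∈ OO p ∧ CC (X v) (v (k + 1)) l - v (k + 2) = v (k + 3) * z) := by
    refine Rc.all' k (R := fun v l => l ≠ 0 → (∃ z, z ∈ OO p ∧ l⁻¹ - 0 = v (k + 4) * z) →
      ∃ z, z ∈ OO p ∧ CC (X v) (v (k + 1)) l - v (k + 2) = v (k + 3) * z) h1 ?_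
    intro v a c
    simp only [hXk k le_rfl, update_of_ne (show k + 1 ≠ k by omega),
      update_of_ne (show k + 2 ≠ k by omega), update_of_ne (show k + 3 ≠ k by omega),
      update_of_ne (show k + 4 ≠ k by omega)]
  have h3 : Rc P (fun v => ∃ d, d ≠ 0 ∧ ∀ l, l ≠ 0 → (∃ z, z ∈ OO p ∧ l⁻¹ - 0 = d * z) →
      ∃ z, z ∈ OO p ∧ CC (X v) (v (k + 1)) l - v (k + 2) = v (k + 3) * z) := by
    refine Rc.ex' (k + 4) (R := fun v d => d ≠ 0 ∧ ∀ l, l ≠ 0 →
      (∃ z, z ∈ OO p ∧ l⁻¹ - 0 = d * z) →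
      ∃ z, z ∈ OO p ∧ CC (X v) (v (k + 1)) l - v (k + 2) = v (k + 3) * z)
      ((Rc.eqC (k + 4) 0).not.and h2) ?_
    intro v a c
    simp only [hXk (k + 4) (by omega), update_of_ne (show k + 1 ≠ k + 4 by omega),
      update_of_ne (show k + 2 ≠ k + 4 by omega), update_of_ne (show k + 3 ≠ k + 4 by omega)]
  have h4 : Rc P (fun v => Lm (X v) (v (k + 1)) (v (k + 2))) := by
    refine Rc.all' (k + 3) (R := fun v c => c ≠ 0 → ∃ d, d ≠ 0 ∧ ∀ l, l ≠ 0 →
      (∃ z, z ∈ OO p ∧ l⁻¹ - 0 = d * z) →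
      ∃ z, z ∈ OO p ∧ CC (X v) (v (k + 1)) l - v (k + 2) = c * z)
      ((Rc.eqC (k + 3) 0).not.imp h3) ?_
    intro v a c
    simp only [hXk (k + 3) (by omega), update_of_ne (show k + 1 ≠ k + 3 by omega),
      update_of_ne (show k + 2 ≠ k + 3 by omega)]
  have h5 : Rc P (fun v => v (k + 1) ^ (X v).ncard = v (k + 2)) := by
    refine (((Rc.eqC (k + 1) 0).and (Rc.eqC (k + 2) 0)).or
      ((Rc.eqC (k + 1) 0).not.and h4)).congr fun v => ?_
    obtain ⟨G, hGv⟩ := hG v
    have hfin : (G : Set (LaurentSeries (ZMod p))).Finite := by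
      rw [hGv]
      exact hX.fin v
    by_cases hx : v (k + 1) = 0
    · have hn : (X v).ncard ≠ 0 := by
        have h6 : (0 : LaurentSeries (ZMod p)) ∈ X v := by
          rw [← hGv]
          exact G.zero_mem
        intro h7
        rw [Set.ncard_eq_zero (hX.fin v)] at h7
        rw [h7] at h6
        exact h6
      rw [hx, zero_pow hn]
      constructor
      · rintro (⟨-, h⟩ | ⟨h, -⟩)
        · exact h.symm
        · exact absurd rfl h
      · intro h
        exact Or.inl ⟨rfl, h.symm⟩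
    · rw [← hGv, lm_iff hLim G hfin hx]
      constructor
      · rintro (⟨h, -⟩ | ⟨-, h⟩)
        · exact absurd h hx
        · exact h
      · intro h
        exact Or.inr ⟨hx, h⟩
  have h6 : Rc P (fun v => f v ^ (X v).ncard = v (k + 2)) := by
    refine Rc.app surjective_id (ρ := id) (R := fun v c => c ^ (X v).ncard = v (k + 2)) hf
      (k + 1) h5 ?_
    intro v a c
    simp only [hXk (k + 1) (by omega), update_of_ne (show k + 2 ≠ k + 1 by omega)]
  refine Ts.of_graph surjective_id (k + 2) h6 ?_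
  intro v a
  simp only [hXk (k + 2) (by omega), hfk (k + 2) (by omega)]

end Pool.Agent.Helper18K9.PJ
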