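import Pool.Agent.Helper14K9.PJ.Base

/-!
# Project PJ, leaf SUM: sums over finite definable sets
-/

set_option autoImplicit false

namespace Pool.Agent.Helper18K9.PJ

open Function
open Pool.Agent.Y924.EL Pool.Agent.Y924.UF
open Pool.Agent.Helper14K9.SO Pool.Agent.Helper14K9.PJ

namespace SumL

variable {p : ℕ} [Fact p.Prime] {P : Set (LaurentSeries (ZMod p))}

/-- constants of a sort -/
theorem ts_const {α : Type} {ρ : LaurentSeries (ZMod p) → α} (hρ : Surjective ρ)
    (hE : EqS P ρ) (a : α) : Ts P ρ (fun _ => a) := by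
  obtain ⟨z, rfl⟩ := hρ a
  exact Ts.op1 (ρ := id) (F := ρ) surjective_id hρ (hE 0 1) hE (Tk.const z)

/-- addition of numbers -/
theorem ts_add {ρ : LaurentSeries (ZMod p) → ℕ} (h : Num P ρ)
    {f g : (ℕ → LaurentSeries (ZMod p)) → ℕ} (hf : Ts P ρ f) (hg : Ts P ρ g) :
    Ts P ρ (fun v => f v + g v) :=
  Ts.op2 (F := fun x y => x + y) h.surj h.surj h.surj h.add h.eqS hf hg

theorem ts_smul {ρ : LaurentSeries (ZMod p) → ℕ} (h : Num P ρ)
    {f : (ℕ → LaurentSeries (ZMod p)) → ℕ} (hf : Ts P ρ f) :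
    ∀ q : ℕ, Ts P ρ (fun v => q * f v)
  | 0 => by simpa using ts_const h.surj h.eqS 0
  | q + 1 => by
    have h1 := ts_add h (ts_smul h hf q) hf
    have h2 : (fun v => (q + 1) * f v) = fun v => q * f v + f v := by
      funext v
      ring
    rw [h2]
    exact h1

/-- the class of a number modulo `p` -/
theorem rc_mod {ρ : LaurentSeries (ZMod p) → ℕ} (h : Num P ρ) (a : ZMod p) :
    Rc P (fun v => ((ρ (v 0) : ℕ) : ZMod p) = a) := by
  have h1 : Rc P (fun v => ∃ c : ℕ, ρ (v 0) = p * c + a.val) := by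
    refine Rc.exS 1 h.surj (R := fun v c => ρ (v 0) = p * c + a.val) ?_ ?_
    · exact Rc.eqT h.surj h.eqS (Ts.var h.eqS 0)
        (ts_add h (ts_smul h (Ts.var h.eqS 1) p) (ts_const h.surj h.eqS a.val))
    · intro v b c
      rw [update_of_ne (show (0 : ℕ) ≠ 1 by norm_num)]
  refine h1.congr fun v => ?_
  constructor
  · rintro ⟨c, hc⟩
    rw [hc]
    push_cast
    rw [CharP.cast_eq_zero (ZMod p) p, zero_mul, zero_add, ZMod.natCast_zmod_val]
  · intro h2
    refine ⟨ρ (v 0) / p, ?_⟩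
    have h3 : ρ (v 0) % p = a.val := by rw [← h2, ZMod.val_natCast]
    rw [← h3]
    exact (Nat.div_add_mod _ _).symm

theorem rc_lam_c {f : (ℕ → LaurentSeries (ZMod p)) → LaurentSeries (ZMod p)} (hf : Tk P f)
    (a : ZMod p) : Rc P (fun v => lam (f v) = a) := by
  obtain ⟨z, rfl⟩ := lam_surj a
  exact rc_lam hf (Tk.const z)

/-- the class modulo `p` as a definable function -/
theorem ts_cast {ρ : LaurentSeries (ZMod p) → ℕ} (h : Num P ρ)
    {f : (ℕ → LaurentSeries (ZMod p)) → ℕ} (hf : Ts P ρ f) :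
    Ts P lam (fun v => ((f v : ℕ) : ZMod p)) := by
  refine Ts.op1 (F := fun n : ℕ => (n : ZMod p)) h.surj lam_surj ?_ eqS_lam hf
  refine (Rc.exFin (ι := ZMod p) fun a =>
    (rc_mod h a).and (rc_lam_c (Tk.var 1) a)).congr fun v => ?_
  constructor
  · rintro ⟨a, h1, h2⟩
    exact h1.trans h2.symm
  · intro h1
    exact ⟨_, h1, rfl⟩

/-- functions on the sort `F_p` -/
theorem ts_map (F : ZMod p → ZMod p) {f : (ℕ → LaurentSeries (ZMod p)) → ZMod p}
    (hf : Ts P lam f) : Ts P lam (fun v => F (f v)) := by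
  refine Ts.op1 (F := F) lam_surj lam_surj ?_ eqS_lam hf
  refine (Rc.exFin (ι := ZMod p) fun a =>
    (rc_lam_c (Tk.var 0) a).and (rc_lam_c (Tk.var 1) (F a))).congr fun v => ?_
  constructor
  · rintro ⟨a, h1, h2⟩
    show F (lam (v 0)) = lam (v 1)
    rw [h1, h2]
  · intro h1
    exact ⟨_, rfl, Eq.symm h1⟩

theorem ts_addl {f g : (ℕ → LaurentSeries (ZMod p)) → ZMod p} (hf : Ts P lam f)
    (hg : Ts P lam g) : Ts P lam (fun v => f v + g v) :=
  Ts.op2 (F := fun x y => x + y) lam_surj lam_surj lam_surj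
    ((rc_lam ((Tk.var 0).add (Tk.var 1)) (Tk.var 2)).congr fun v => by rw [lam_add])
    eqS_lam hf hg

theorem ts_sum {ι : Type} (s : Finset ι) {f : ι → (ℕ → LaurentSeries (ZMod p)) → ZMod p}
    (hf : ∀ i, Ts P lam (f i)) : Ts P lam (fun v => ∑ i ∈ s, f i v) := by
  classical
  induction s using Finset.induction_on with
  | empty => simpa using ts_const lam_surj eqS_lam (0 : ZMod p)
  | insert a s ha ih =>
    have h1 := ts_addl (hf a) ih
    simpa only [Finset.sum_insert ha] using h1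

/-- `lam` as a homomorphism -/
def lamH (p : ℕ) : LaurentSeries (ZMod p) →+ ZMod p where
  toFun := lam
  map_zero' := by simp [Pool.Agent.Helper14K9.PJ.lam]
  map_add' x y := by simp [Pool.Agent.Helper14K9.PJ.lam]

theorem sep {z w : LaurentSeries (ZMod p)} (h : ∀ c, lam (c * z) = lam (c * w)) : z = w := by
  by_contra hne
  have h1 : z - w ≠ 0 := sub_ne_zero.2 hne
  have h2 := h (z - w)⁻¹
  have h3 : lam ((z - w)⁻¹ * z) - lam ((z - w)⁻¹ * w) = 1 := by
    rw [← lam_sub, ← mul_sub, inv_mul_cancel₀ h1]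
    simp [Pool.Agent.Helper14K9.PJ.lam]
  rw [h2, sub_self] at h3
  exact one_ne_zero h3.symm

theorem lam_finsum {X : Set (LaurentSeries (ZMod p))} (hX : X.Finite)
    (f : LaurentSeries (ZMod p) → LaurentSeries (ZMod p)) (c : LaurentSeries (ZMod p)) :
    lam (c * ∑ᶠ x ∈ X, f x) = ∑ᶠ x ∈ X, lam (c * f x) := by
  rw [finsum_mem_eq_finite_toFinset_sum _ hX, finsum_mem_eq_finite_toFinset_sum _ hX,
    Finset.mul_sum]
  exact map_sum (lamH p) _ _

theorem sum_fib {X : Set (LaurentSeries (ZMod p))} (hX : X.Finite)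
    (g : LaurentSeries (ZMod p) → ZMod p) :
    ∑ᶠ x ∈ X, g x = ∑ a : ZMod p,
      a * ((({x | x ∈ X ∧ g x = a} : Set (LaurentSeries (ZMod p))).ncard : ℕ) : ZMod p) := by
  classical
  rw [finsum_mem_eq_finite_toFinset_sum _ hX, ← Finset.sum_fiberwise hX.toFinset g g]
  refine Finset.sum_congr rfl fun a _ => ?_
  have h1 : ({x | x ∈ X ∧ g x = a} : Set (LaurentSeries (ZMod p))) =
      ((hX.toFinset.filter (fun x => g x = a) : Finset (LaurentSeries (ZMod p))) :
        Set (LaurentSeries (ZMod p))) := by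
    ext x
    simp
  rw [h1, Set.ncard_coe_finset,
    Finset.sum_congr rfl (fun x hx => (Finset.mem_filter.1 hx).2), Finset.sum_const,
    nsmul_eq_mul, mul_comm]

theorem fam_fresh {X : (ℕ → LaurentSeries (ZMod p)) → Set (LaurentSeries (ZMod p))}
    (hX : Fam P X) : ∃ N, ∀ j, N ≤ j → ∀ v a, X (update v j a) = X v := by
  obtain ⟨N, hN⟩ := hX.mem.fresh
  refine ⟨N + 1, fun j hj v a => ?_⟩
  ext b
  have h1 := hN j (by omega) (update v 0 b) a
  rw [update_comm (show (0 : ℕ) ≠ j by omega)] at h1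
  simp only [update_self, hX.ind] at h1
  exact h1

theorem fun_fresh {f : (ℕ → LaurentSeries (ZMod p)) → LaurentSeries (ZMod p) →
    LaurentSeries (ZMod p)} {i : ℕ} (hi0 : i ≠ 0) (hf : Rc P (fun v => f v (v 0) = v i))
    (h0 : ∀ v a, f (update v 0 a) = f v) (hi : ∀ v a, f (update v i a) = f v) :
    ∃ N, ∀ j, N ≤ j → ∀ v a, f (update v j a) = f v := by
  obtain ⟨N, hN⟩ := hf.fresh
  refine ⟨N + i + 1, fun j hj v a => ?_⟩
  funext b
  have h1 := hN j (by omega) (update (update v 0 b) i (f v b)) a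
  rw [update_comm (show i ≠ j by omega), update_comm (show (0 : ℕ) ≠ j by omega)] at h1
  rw [update_self, update_self, update_of_ne hi0.symm, update_of_ne hi0.symm, update_self,
    update_self, hi, hi, h0, h0] at h1
  exact h1.2 rfl

end SumL

open SumL

theorem sum : S_SUM := by
  intro p _ P ρ hρ X hX f i hi0 hf h0 hi hXi
  obtain ⟨N1, hN1⟩ := fam_fresh hX
  obtain ⟨N2, hN2⟩ := fun_fresh hi0 hf h0 hi
  obtain ⟨k, hk⟩ : ∃ k, k = N1 + N2 + i + 1 := ⟨_, rfl⟩
  have hkX : ∀ v a, X (update v k a) = X v := hN1 k (by omega)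
  have hkf : ∀ v a, f (update v k a) = f v := hN2 k (by omega)
  have hk0 : k ≠ 0 := by omega
  have hki : k ≠ i := by omega
  have hF : Tk P (fun v => f v (v 0)) := Ts.of_graph surjective_id i hf (fun v a => by
    rw [hi, update_of_ne hi0.symm])
  have hY : ∀ a : ZMod p, Fam P (fun v => {x | x ∈ X v ∧ lam (v k * f v x) = a}) := by
    intro a
    refine ⟨?_, ?_, ?_⟩
    · exact (hX.mem.and (rc_lam_c ((Tk.var k).mul hF) a)).congr fun v => Iff.rfl
    · intro v b
      simp only [hX.ind, h0, update_of_ne hk0]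
    · intro v
      exact (hX.fin v).subset fun x hx => hx.1
  have hS : Ts P lam (fun v => ∑ a : ZMod p, a *
      ((({x | x ∈ X v ∧ lam (v k * f v x) = a} : Set (LaurentSeries (ZMod p))).ncard : ℕ) :
        ZMod p)) :=
    ts_sum _ fun a => ts_map (fun x => a * x) (ts_cast hρ (hρ.card _ (hY a)))
  have hR := Rc.eqT lam_surj eqS_lam (ts_lam ((Tk.var k).mul (Tk.var (P := P) i))) hS
  have hA : Rc P (fun v => ∀ c : LaurentSeries (ZMod p),
      lam (c * v i) = ∑ᶠ x ∈ X v, lam (c * f v x)) := by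
    refine Rc.all' k (R := fun v c => lam (c * v i) = ∑ᶠ x ∈ X v, lam (c * f v x)) ?_ ?_
    · refine hR.congr fun v => ?_
      rw [sum_fib (hX.fin v)]
    · intro v a c
      simp only [hkX, hkf, update_of_ne hki.symm]
  refine Ts.of_graph surjective_id i (hA.congr fun v => ?_) ?_
  · show _ ↔ ∑ᶠ x ∈ X v, f v x = v i
    constructor
    · intro h
      refine sep fun c => ?_
      rw [h c, lam_finsum (hX.fin v)]
    · intro h c
      rw [← h, lam_finsum (hX.fin v)]
  · intro v a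
    simp only [hXi, hi]

end Pool.Agent.Helper18K9.PJ
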